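import Pool.Agent.H22.AN.TB3
import Pool.Agent.H80.AN.TargetsA

/-!
# Row TCS of the board allh_modules: Cauchy-Schwarz inequality in a tube
-/

set_option autoImplicit false

namespace Pool.Agent.H40.AN

open MeasureTheory Metric Set Filter Topology Pool.Agent.H87.SN Pool.Agent.H87.SH Pool.Agent.H87.AX
open Pool.Agent.H22.AN
open scoped ContDiff RealInnerProductSpace ENNReal

/-- Bessel inequality for an orthonormal pair -/
theorem bessel {d : ℕ} {ν₁ ν₂ : V d} (h : ON ν₁ ν₂) (v : V d) :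
    ⟪v, ν₁⟫ ^ 2 + ⟪v, ν₂⟫ ^ 2 ≤ ‖v‖ ^ 2 := by
  obtain ⟨h1, h2, h3⟩ := h
  have e1 : ‖v - (⟪v, ν₁⟫ • ν₁ + ⟪v, ν₂⟫ • ν₂)‖ ^ 2 =
      ‖v‖ ^ 2 - (⟪v, ν₁⟫ ^ 2 + ⟪v, ν₂⟫ ^ 2) := by
    rw [norm_sub_sq_real, norm_add_sq_real, inner_add_right, real_inner_smul_right,
      real_inner_smul_right, real_inner_smul_left, real_inner_smul_right, norm_smul, norm_smul,
      h1, h2, h3, mul_one, mul_one, Real.norm_eq_abs, Real.norm_eq_abs, sq_abs, sq_abs]
    ring
  have e2 : 0 ≤ ‖v - (⟪v, ν₁⟫ • ν₁ + ⟪v, ν₂⟫ • ν₂)‖ ^ 2 := sq_nonneg _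
  linarith

theorem dl_near {d : ℕ} {a ν₁ ν₂ : V d} (h : ON ν₁ ν₂) {t : ℝ} (ht : 0 < t) {x y : V d}
    (hx : dl a ν₁ ν₂ x < (2 * t) ^ 2) (hxy : dist x y < 8 * t) :
    dl a ν₁ ν₂ y < (10 * t) ^ 2 := by
  have hb := bessel h (y - x)
  have hn : ‖y - x‖ < 8 * t := by
    rw [← dist_eq_norm, dist_comm]
    exact hxy
  have hn2 : ‖y - x‖ ^ 2 < (8 * t) ^ 2 := by
    have := norm_nonneg (y - x)
    nlinarith
  have e1 : ⟪y - a, ν₁⟫ = ⟪x - a, ν₁⟫ + ⟪y - x, ν₁⟫ := by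
    rw [← inner_add_left]
    congr 1
    abel
  have e2 : ⟪y - a, ν₂⟫ = ⟪x - a, ν₂⟫ + ⟪y - x, ν₂⟫ := by
    rw [← inner_add_left]
    congr 1
    abel
  unfold dl at hx ⊢
  rw [e1, e2]
  generalize ⟪x - a, ν₁⟫ = p1 at *
  generalize ⟪x - a, ν₂⟫ = p2 at *
  generalize ⟪y - x, ν₁⟫ = q1 at *
  generalize ⟪y - x, ν₂⟫ = q2 at *
  have hQ : q1 ^ 2 + q2 ^ 2 < (8 * t) ^ 2 := lt_of_le_of_lt hb hn2
  have hpq : p1 * q1 + p2 * q2 ≤ 16 * t ^ 2 := by
    by_contra hc
    rw [not_le] at hc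
    have h3 : (p1 * q1 + p2 * q2) ^ 2 ≤ (p1 ^ 2 + p2 ^ 2) * (q1 ^ 2 + q2 ^ 2) := by
      nlinarith [sq_nonneg (p1 * q2 - p2 * q1)]
    have h4 : (p1 ^ 2 + p2 ^ 2) * (q1 ^ 2 + q2 ^ 2) ≤ (2 * t) ^ 2 * (8 * t) ^ 2 :=
      mul_le_mul hx.le hQ.le (by positivity) (by positivity)
    have h5 : (16 * t ^ 2) ^ 2 < (p1 * q1 + p2 * q2) ^ 2 :=
      pow_lt_pow_left₀ hc (by positivity) (by norm_num)
    nlinarith
  nlinarith

theorem ofReal_half {x : ℝ} (hx : 0 ≤ x) :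
    ENNReal.ofReal x = ENNReal.ofReal (x ^ 2) ^ (1 / 2 : ℝ) := by
  rw [ENNReal.ofReal_rpow_of_nonneg (sq_nonneg x) (by norm_num), ← Real.sqrt_eq_rpow,
    Real.sqrt_sq hx]

theorem dl_cont {d : ℕ} (a ν₁ ν₂ : V d) : Continuous (fun y => dl a ν₁ ν₂ y) := by
  unfold dl
  fun_prop

theorem pf_TCS (hTVL : T_TVL) (hMUF : T_MUF) : T_TCS := by
  intro d
  obtain ⟨C, hC, hV⟩ := hTVL d
  obtain ⟨v₁, hv₁⟩ : ∃ v₁ : ℝ, v₁ = (volume (ball (0 : V d) 1)).toReal := ⟨_, rfl⟩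
  have hv0 : 0 ≤ v₁ := by rw [hv₁]; exact ENNReal.toReal_nonneg
  have hvol : ∀ (y : V d) (s : ℝ), 0 ≤ s →
      volume (ball y s) = ENNReal.ofReal (s ^ (d + 2) * v₁) := by
    intro y s hs
    rw [Measure.addHaar_ball _ _ hs, finrank_euclideanSpace_fin,
      ENNReal.ofReal_mul (by positivity), hv₁, ENNReal.ofReal_toReal measure_ball_lt_top.ne]
  refine ⟨Real.sqrt (4 * C * (8 ^ (d + 2) * v₁)), Real.sqrt_nonneg _, ?_⟩
  intro m G hG a ν₁ ν₂ c t ρ hON ht htρ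
  obtain ⟨hfin, -⟩ := hMUF d m G hG
  haveI : IsFiniteMeasure (mu G) := ⟨lt_top_iff_ne_top.2 hfin⟩
  obtain ⟨S, hS⟩ : ∃ S : Set (V d), S = {x : V d | x ∈ ball c ρ ∧ dl a ν₁ ν₂ x < (2 * t) ^ 2} :=
    ⟨_, rfl⟩
  obtain ⟨S', hS'⟩ : ∃ S' : Set (V d),
      S' = {x : V d | x ∈ ball c (2 * ρ) ∧ dl a ν₁ ν₂ x < (10 * t) ^ 2} := ⟨_, rfl⟩
  have hSm' : MeasurableSet S' := by
    rw [hS']
    exact (isOpen_ball.inter (isOpen_lt (dl_cont a ν₁ ν₂) continuous_const)).measurableSet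
  have hdm : Measurable (fun y => ENNReal.ofReal (dl a ν₁ ν₂ y)) :=
    (dl_cont a ν₁ ν₂).measurable.ennreal_ofReal
  rw [← hS, ← hS']
  have hk : Measurable (fun p : V d × V d =>
      ({p : V d × V d | dist p.2 p.1 < 8 * t}).indicator
        (fun p => ENNReal.ofReal (dl a ν₁ ν₂ p.2)) p) := by
    refine Measurable.indicator (hdm.comp measurable_snd) ?_
    exact (isOpen_lt (continuous_snd.dist continuous_fst) continuous_const).measurableSet
  have hJ : ∀ x : V d, ∫⁻ y in ball x (8 * t), ENNReal.ofReal (dl a ν₁ ν₂ y) ∂(mu G) =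
      ∫⁻ y, ({p : V d × V d | dist p.2 p.1 < 8 * t}).indicator
        (fun p => ENNReal.ofReal (dl a ν₁ ν₂ p.2)) (x, y) ∂(mu G) := by
    intro x
    rw [← lintegral_indicator measurableSet_ball]
    rfl
  have hJm : Measurable (fun x : V d =>
      ∫⁻ y in ball x (8 * t), ENNReal.ofReal (dl a ν₁ ν₂ y) ∂(mu G)) := by
    have h1 : (fun x : V d => ∫⁻ y in ball x (8 * t), ENNReal.ofReal (dl a ν₁ ν₂ y) ∂(mu G)) =
        fun x => ∫⁻ y, ({p : V d × V d | dist p.2 p.1 < 8 * t}).indicator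
        (fun p => ENNReal.ofReal (dl a ν₁ ν₂ p.2)) (x, y) ∂(mu G) := funext hJ
    rw [h1]
    exact hk.lintegral_prod_right'
  -- the integral over the tube
  have hA : ∫⁻ x in S, (ENNReal.ofReal ((t ^ (d + 2))⁻¹) *
      ∫⁻ y in ball x (8 * t), ENNReal.ofReal (dl a ν₁ ν₂ y) ∂(mu G)) ≤
      ENNReal.ofReal (8 ^ (d + 2) * v₁) *
        ∫⁻ x in S', ENNReal.ofReal (dl a ν₁ ν₂ x) ∂(mu G) := by
    rw [lintegral_const_mul' _ _ ENNReal.ofReal_ne_top]
    have h2 : ∫⁻ x in S, ∫⁻ y in ball x (8 * t), ENNReal.ofReal (dl a ν₁ ν₂ y) ∂(mu G) =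
        ∫⁻ y, (∫⁻ x in S, ({p : V d × V d | dist p.2 p.1 < 8 * t}).indicator
        (fun p => ENNReal.ofReal (dl a ν₁ ν₂ p.2)) (x, y)) ∂(mu G) := by
      rw [lintegral_congr hJ]
      refine lintegral_lintegral_swap (μ := volume.restrict S) (ν := mu G) (f := fun x y =>
        ({p : V d × V d | dist p.2 p.1 < 8 * t}).indicator
        (fun p => ENNReal.ofReal (dl a ν₁ ν₂ p.2)) (x, y)) ?_
      exact hk.aemeasurable
    have h3 : ∀ y : V d, ∫⁻ x in S, ({p : V d × V d | dist p.2 p.1 < 8 * t}).indicator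
        (fun p => ENNReal.ofReal (dl a ν₁ ν₂ p.2)) (x, y) ≤
        S'.indicator (fun y => ENNReal.ofReal ((8 * t) ^ (d + 2) * v₁) *
          ENNReal.ofReal (dl a ν₁ ν₂ y)) y := by
      intro y
      by_cases hy : y ∈ S'
      · rw [indicator_of_mem hy]
        calc ∫⁻ x in S, ({p : V d × V d | dist p.2 p.1 < 8 * t}).indicator
              (fun p => ENNReal.ofReal (dl a ν₁ ν₂ p.2)) (x, y)
            ≤ ∫⁻ x, ({p : V d × V d | dist p.2 p.1 < 8 * t}).indicator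
              (fun p => ENNReal.ofReal (dl a ν₁ ν₂ p.2)) (x, y) := setLIntegral_le_lintegral _ _
          _ = ∫⁻ x, (ball y (8 * t)).indicator
              (fun _ => ENNReal.ofReal (dl a ν₁ ν₂ y)) x := by
              refine lintegral_congr fun x => ?_
              by_cases hx : x ∈ ball y (8 * t)
              · rw [indicator_of_mem hx, indicator_of_mem]
                change dist y x < 8 * t
                rw [dist_comm]
                exact hx
              · rw [indicator_of_notMem hx, indicator_of_notMem]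
                intro hx'
                apply hx
                change dist x y < 8 * t
                rw [dist_comm]
                exact hx'
          _ = _ := by
              rw [lintegral_indicator measurableSet_ball, setLIntegral_const,
                hvol y _ (by positivity), mul_comm]
      · rw [indicator_of_notMem hy]
        refine le_of_eq ?_
        have hSm : MeasurableSet S := by
          rw [hS]
          exact (isOpen_ball.inter (isOpen_lt (dl_cont a ν₁ ν₂) continuous_const)).measurableSet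
        rw [setLIntegral_congr_fun (g := fun _ => (0 : ℝ≥0∞)) hSm ?_, lintegral_zero]
        intro x hx
        refine indicator_of_notMem ?_ _
        intro hxy
        apply hy
        rw [hS] at hx
        rw [hS']
        have hxy' : dist x y < 8 * t := by
          rw [dist_comm]
          exact hxy
        refine ⟨?_, dl_near hON ht hx.2 hxy'⟩
        have h4 : dist x c < ρ := hx.1
        rw [mem_ball]
        calc dist y c ≤ dist y x + dist x c := dist_triangle _ _ _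
          _ < 8 * t + ρ := by
            rw [dist_comm y x]
            exact add_lt_add hxy' h4
          _ ≤ 2 * ρ := by linarith
    rw [h2]
    calc _ ≤ ENNReal.ofReal ((t ^ (d + 2))⁻¹) * ∫⁻ y, S'.indicator
          (fun y => ENNReal.ofReal ((8 * t) ^ (d + 2) * v₁) *
          ENNReal.ofReal (dl a ν₁ ν₂ y)) y ∂(mu G) := by
          exact mul_le_mul_right (lintegral_mono h3) _
      _ = _ := by
          rw [lintegral_indicator hSm', lintegral_const_mul' _ _ ENNReal.ofReal_ne_top,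
            ← mul_assoc, ← ENNReal.ofReal_mul (by positivity)]
          congr 2
          rw [mul_pow]
          field_simp
  -- Cauchy-Schwarz
  have hB : ∫⁻ x in S, Fm G a ν₁ ν₂ t x ≤
      (∫⁻ x in S, (ENNReal.ofReal ((t ^ (d + 2))⁻¹) *
      ∫⁻ y in ball x (8 * t), ENNReal.ofReal (dl a ν₁ ν₂ y) ∂(mu G))) ^ (1 / 2 : ℝ) *
      volume S ^ (1 / 2 : ℝ) := by
    have hc : Real.HolderConjugate 2 2 := Real.HolderConjugate.two_two
    have h1 := ENNReal.lintegral_mul_le_Lp_mul_Lq (volume.restrict S) hc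
      (f := fun x => Fm G a ν₁ ν₂ t x) (g := fun _ => 1)
      (by
        refine Measurable.aemeasurable ?_
        unfold Fm
        exact (hJm.const_mul _).pow_const _) aemeasurable_const
    have e1 : ∀ x, (Fm G a ν₁ ν₂ t x) ^ (2 : ℝ) = ENNReal.ofReal ((t ^ (d + 2))⁻¹) *
      ∫⁻ y in ball x (8 * t), ENNReal.ofReal (dl a ν₁ ν₂ y) ∂(mu G) := by
      intro x
      unfold Fm
      rw [← ENNReal.rpow_mul, show (1 / 2 : ℝ) * 2 = 1 by norm_num, ENNReal.rpow_one]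
    have e2 : ∫⁻ _x in S, (1 : ℝ≥0∞) ^ (2 : ℝ) = volume S := by
      rw [ENNReal.one_rpow, setLIntegral_one]
    rw [lintegral_congr e1, e2] at h1
    refine le_trans (le_of_eq ?_) h1
    refine lintegral_congr fun x => ?_
    change _ = Fm G a ν₁ ν₂ t x * 1
    rw [mul_one]
  have hS2 : volume S ≤ ENNReal.ofReal (C * (2 * t) ^ 2 * ρ ^ d) := by
    rw [hS]
    exact hV a ν₁ ν₂ c (2 * t) ρ hON (by positivity) (by linarith)
  have hρ : 0 < ρ := by linarith
  have hhalf : (0 : ℝ) ≤ 1 / 2 := by norm_num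
  calc ENNReal.ofReal ((t ^ 2)⁻¹) * ∫⁻ x in S, Fm G a ν₁ ν₂ t x
      ≤ ENNReal.ofReal ((t ^ 2)⁻¹) * ((ENNReal.ofReal (8 ^ (d + 2) * v₁) *
        ∫⁻ x in S', ENNReal.ofReal (dl a ν₁ ν₂ x) ∂(mu G)) ^ (1 / 2 : ℝ) *
        ENNReal.ofReal (C * (2 * t) ^ 2 * ρ ^ d) ^ (1 / 2 : ℝ)) := by
        refine mul_le_mul_right (hB.trans ?_) _
        exact mul_le_mul' (ENNReal.rpow_le_rpow hA hhalf) (ENNReal.rpow_le_rpow hS2 hhalf)
    _ = (ENNReal.ofReal (((t ^ 2)⁻¹) ^ 2) * ((ENNReal.ofReal (8 ^ (d + 2) * v₁) *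
        ∫⁻ x in S', ENNReal.ofReal (dl a ν₁ ν₂ x) ∂(mu G)) *
        ENNReal.ofReal (C * (2 * t) ^ 2 * ρ ^ d))) ^ (1 / 2 : ℝ) := by
        generalize ENNReal.ofReal (8 ^ (d + 2) * v₁) *
          ∫⁻ x in S', ENNReal.ofReal (dl a ν₁ ν₂ x) ∂(mu G) = B
        generalize ENNReal.ofReal (C * (2 * t) ^ 2 * ρ ^ d) = D
        rw [ENNReal.mul_rpow_of_nonneg _ _ hhalf, ENNReal.mul_rpow_of_nonneg _ _ hhalf,
          ← ofReal_half (x := (t ^ 2)⁻¹) (by positivity)]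
    _ = (ENNReal.ofReal (Real.sqrt (4 * C * (8 ^ (d + 2) * v₁)) ^ 2) *
        (ENNReal.ofReal (ρ ^ d / t ^ 2) *
        ∫⁻ x in S', ENNReal.ofReal (dl a ν₁ ν₂ x) ∂(mu G))) ^ (1 / 2 : ℝ) := by
        congr 1
        rw [Real.sq_sqrt (by positivity)]
        generalize ∫⁻ x in S', ENNReal.ofReal (dl a ν₁ ν₂ x) ∂(mu G) = P
        have e3 : ENNReal.ofReal (((t ^ 2)⁻¹) ^ 2) * ((ENNReal.ofReal (8 ^ (d + 2) * v₁) * P) *
            ENNReal.ofReal (C * (2 * t) ^ 2 * ρ ^ d)) =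
            (ENNReal.ofReal (((t ^ 2)⁻¹) ^ 2) * ENNReal.ofReal (8 ^ (d + 2) * v₁) *
              ENNReal.ofReal (C * (2 * t) ^ 2 * ρ ^ d)) * P := by ring
        rw [e3, ← mul_assoc, ← ENNReal.ofReal_mul (by positivity),
          ← ENNReal.ofReal_mul (by positivity), ← ENNReal.ofReal_mul (by positivity)]
        congr 2
        field_simp
        ring
    _ = _ := by
        rw [ENNReal.mul_rpow_of_nonneg _ _ hhalf, ← ofReal_half (Real.sqrt_nonneg _)]

end Pool.Agent.H40.AN
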